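import Pool.Agent.helper14.MT.Defs2

set_option autoImplicit false

namespace Pool.Agent.helper39.MT

open Finset

private lemma sa_cons {X : Type*} [Fintype X] (n : ℕ) (F : (Fin (n + 1) → X) → ℝ) :
    ∑ t : Fin (n + 1) → X, F t = ∑ t0 : X, ∑ t' : Fin n → X, F (Fin.cons t0 t') := by
  rw [← Fintype.sum_prod_type']
  exact (Fintype.sum_equiv (Fin.consEquiv (fun _ => X)) _ _ (fun _ => rfl)).symm

private lemma sa_cons' {X : Type*} [Fintype X] (n : ℕ) (F : (Fin (n + 1) → X) → ℝ) :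
    ∑ t : Fin (n + 1) → X, F t = ∑ t' : Fin n → X, ∑ t0 : X, F (Fin.cons t0 t') := by
  rw [sa_cons, sum_comm]

private lemma sa_in {S X : Type*} [Fintype S] [Fintype X] (n : ℕ) (y : (Fin (n + 1) → S) → ℝ)
    (K : Fin (n + 1) → S → X → ℝ) (t0 : X) (t' : Fin n → X) :
    ∑ σ : Fin (n + 1) → S, y σ * ∏ p, K p (σ p) ((Fin.cons t0 t' : Fin (n + 1) → X) p)
      = ∑ s : S, (∑ σ' : Fin n → S, y (Fin.cons s σ') * ∏ p, K p.succ (σ' p) (t' p))
          * K 0 s t0 := by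
  rw [sa_cons]
  refine sum_congr rfl fun s _ => ?_
  rw [sum_mul]
  refine sum_congr rfl fun σ' _ => ?_
  rw [Fin.prod_univ_succ]
  simp only [Fin.cons_zero, Fin.cons_succ]
  ring

private lemma sa_sw {S X : Type*} [Fintype S] [Fintype X] (n : ℕ) (y : (Fin (n + 1) → S) → ℝ)
    (w : S → ℝ) (K : Fin n → S → X → ℝ) (t' : Fin n → X) :
    ∑ s : S, (∑ σ' : Fin n → S, y (Fin.cons s σ') * ∏ p, K p (σ' p) (t' p)) * w s
      = ∑ σ' : Fin n → S, (∑ s : S, y (Fin.cons s σ') * w s) * ∏ p, K p (σ' p) (t' p) := by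
  simp only [sum_mul]
  rw [sum_comm]
  refine sum_congr rfl fun σ' _ => sum_congr rfl fun s _ => ?_
  ring

private theorem tensor_fin {Ω S T : Type*} [Fintype Ω] [Fintype S] [Fintype T] :
    ∀ (n : ℕ) (μ : Fin n → Ω → ℝ) (H : Fin n → T → ℝ) (Φ : Fin n → S → Ω → ℝ)
      (Z : Fin n → S → T → ℝ)
      (_ : ∀ p e, 0 ≤ μ p e) (_ : ∀ p t, 0 ≤ H p t)
      (_ : ∀ p, ∀ v : S → ℝ, ∑ t, H p t * (∑ s, v s * Z p s t) ^ 2
        ≤ ∑ e, μ p e * (∑ s, v s * Φ p s e) ^ 2) (y : (Fin n → S) → ℝ),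
      ∑ t : Fin n → T, (∏ p, H p (t p)) * (∑ σ : Fin n → S, y σ * ∏ p, Z p (σ p) (t p)) ^ 2
        ≤ ∑ e : Fin n → Ω, (∏ p, μ p (e p)) * (∑ σ : Fin n → S, y σ * ∏ p, Φ p (σ p) (e p)) ^ 2 := by
  intro n
  induction n with
  | zero =>
    intro μ H Φ Z _ _ _ y
    simp
  | succ n ih =>
    intro μ H Φ Z hμ hH hloc y
    rw [sa_cons' (X := T), sa_cons (X := Ω)]
    have step1 : ∀ t' : Fin n → T,
        ∑ t0 : T, (∏ p, H p ((Fin.cons t0 t' : Fin (n + 1) → T) p)) *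
          (∑ σ : Fin (n + 1) → S, y σ * ∏ p, Z p (σ p) ((Fin.cons t0 t' : Fin (n + 1) → T) p)) ^ 2
        ≤ (∏ p : Fin n, H p.succ (t' p)) * ∑ e : Ω, μ 0 e *
            (∑ s : S, (∑ σ' : Fin n → S, y (Fin.cons s σ') * ∏ p, Z p.succ (σ' p) (t' p))
              * Φ 0 s e) ^ 2 := by
      intro t'
      have h1 := mul_le_mul_of_nonneg_left
        (hloc 0 (fun s => ∑ σ' : Fin n → S, y (Fin.cons s σ') * ∏ p, Z p.succ (σ' p) (t' p)))
        (prod_nonneg (s := univ) (f := fun p : Fin n => H p.succ (t' p))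
          (fun p _ => hH p.succ (t' p)))
      refine le_trans (le_of_eq ?_) h1
      rw [mul_sum]
      refine sum_congr rfl fun t0 _ => ?_
      rw [sa_in n y Z t0 t', Fin.prod_univ_succ]
      simp only [Fin.cons_zero, Fin.cons_succ]
      ring
    refine le_trans (sum_le_sum fun t' _ => step1 t') ?_
    simp only [mul_sum]
    rw [sum_comm]
    refine sum_le_sum fun e0 _ => ?_
    have h2 := mul_le_mul_of_nonneg_left
      (ih (fun p => μ p.succ) (fun p => H p.succ) (fun p => Φ p.succ) (fun p => Z p.succ)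
        (fun p e => hμ p.succ e) (fun p t => hH p.succ t) (fun p v => hloc p.succ v)
        (fun σ' => ∑ s : S, y (Fin.cons s σ') * Φ 0 s e0)) (hμ 0 e0)
    refine le_trans (le_of_eq ?_) (le_trans h2 (le_of_eq ?_))
    · rw [mul_sum]
      refine sum_congr rfl fun t' _ => ?_
      rw [sa_sw n y (fun s => Φ 0 s e0) (fun p => Z p.succ) t']
      ring
    · rw [mul_sum]
      refine sum_congr rfl fun e' _ => ?_
      rw [sa_in n y Φ e0 e', sa_sw n y (fun s => Φ 0 s e0) (fun p => Φ p.succ) e',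
        Fin.prod_univ_succ]
      simp only [Fin.cons_zero, Fin.cons_succ]
      ring

section SA

private lemma sa_conv {ι S X : Type*} [Fintype ι] [DecidableEq ι] [Fintype S] [Fintype X]
    (y : (ι → S) → ℝ) (m : ι → X → ℝ) (K : ι → S → X → ℝ) :
    ∑ t : ι → X, (∏ p, m p (t p)) * (∑ σ : ι → S, y σ * ∏ p, K p (σ p) (t p)) ^ 2
      = ∑ t : Fin (Fintype.card ι) → X, (∏ j, m ((Fintype.equivFin ι).symm j) (t j)) *
          (∑ σ : Fin (Fintype.card ι) → S, y (fun p => σ (Fintype.equivFin ι p)) *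
            ∏ j, K ((Fintype.equivFin ι).symm j) (σ j) (t j)) ^ 2 := by
  classical
  set E : ι ≃ Fin (Fintype.card ι) := Fintype.equivFin ι
  have hsum : ∀ F : (ι → X) → ℝ,
      ∑ t : ι → X, F t = ∑ t : Fin (Fintype.card ι) → X, F (fun p => t (E p)) := by
    intro F
    refine (Fintype.sum_equiv (Equiv.arrowCongr E.symm (Equiv.refl X)) _ _ (fun t => ?_)).symm
    congr 1
  have hsum' : ∀ F : (ι → S) → ℝ,
      ∑ t : ι → S, F t = ∑ t : Fin (Fintype.card ι) → S, F (fun p => t (E p)) := by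
    intro F
    refine (Fintype.sum_equiv (Equiv.arrowCongr E.symm (Equiv.refl S)) _ _ (fun t => ?_)).symm
    congr 1
  have hprod : ∀ F : ι → ℝ, ∏ p, F p = ∏ j : Fin (Fintype.card ι), F (E.symm j) := fun F =>
    (Equiv.prod_comp E.symm F).symm
  rw [hsum]
  refine sum_congr rfl fun t _ => ?_
  rw [hprod, hsum']
  simp only [Equiv.apply_symm_apply]
  congr 2
  refine sum_congr rfl fun σ _ => ?_
  rw [hprod]
  simp only [Equiv.apply_symm_apply]

variable {ι Ω S T : Type*} [Fintype ι] [DecidableEq ι] [Fintype Ω] [Fintype S] [Fintype T]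

/-- module SA. -/
theorem tensor (μ : ι → Ω → ℝ) (H : ι → T → ℝ) (Φ : ι → S → Ω → ℝ) (Z : ι → S → T → ℝ)
    (hμ : ∀ p e, 0 ≤ μ p e) (hH : ∀ p t, 0 ≤ H p t)
    (hloc : ∀ p, ∀ v : S → ℝ, ∑ t, H p t * (∑ s, v s * Z p s t) ^ 2
      ≤ ∑ e, μ p e * (∑ s, v s * Φ p s e) ^ 2) (y : (ι → S) → ℝ) :
    ∑ t : ι → T, (∏ p, H p (t p)) * (∑ σ : ι → S, y σ * ∏ p, Z p (σ p) (t p)) ^ 2
      ≤ ∑ e : ι → Ω, (∏ p, μ p (e p)) * (∑ σ : ι → S, y σ * ∏ p, Φ p (σ p) (e p)) ^ 2 := by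
  rw [sa_conv y μ Φ, sa_conv y H Z]
  exact tensor_fin (Fintype.card ι) (fun j => μ ((Fintype.equivFin ι).symm j))
    (fun j => H ((Fintype.equivFin ι).symm j)) (fun j => Φ ((Fintype.equivFin ι).symm j))
    (fun j => Z ((Fintype.equivFin ι).symm j)) (fun j e => hμ _ e) (fun j t => hH _ t)
    (fun j v => hloc _ v) (fun σ => y (fun p => σ (Fintype.equivFin ι p)))

end SA

end Pool.Agent.helper39.MT
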