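import Pool.Agent.helper14.MT.Defs2

set_option autoImplicit false

namespace Pool.Agent.helper39.MT

open Finset

private lemma sb_none {k : ℕ} (p : ℝ) (v : Option (Fin k) → ℝ) :
    ∑ s, v s * Phi p s none = v none + (∑ j, v (some j)) / (p - 1) := by
  rw [Fintype.sum_option]
  simp only [Phi, reduceCtorEq, if_false, sub_zero, mul_one, sum_div]
  congr 1
  refine sum_congr rfl fun j _ => ?_
  ring

private lemma sb_some {k : ℕ} (p : ℝ) (v : Option (Fin k) → ℝ) (i : Fin k) :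
    ∑ s, v s * Phi p s (some i)
      = v none + (∑ j, v (some j)) / (p - 1) - p / (p - 1) * v (some i) := by
  rw [Fintype.sum_option]
  simp only [Phi, Option.some.injEq, mul_one]
  have : ∀ j, v (some j) * ((1 - if i = j then p else 0) / (p - 1))
      = v (some j) / (p - 1) - (if i = j then p / (p - 1) * v (some i) else 0) := by
    intro j
    split_ifs with h
    · subst h; ring
    · ring
  rw [sum_congr rfl fun j _ => this j, sum_sub_distrib, sum_ite_eq, if_pos (mem_univ _), sum_div]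
  ring

private lemma sb_sq {κ : Type*} (s : Finset κ) (w : κ → ℝ) (B c : ℝ) :
    ∑ i ∈ s, (B - c * w i) ^ 2 = s.card * B ^ 2 - 2 * c * B * ∑ i ∈ s, w i
      + c ^ 2 * ∑ i ∈ s, w i ^ 2 := by
  have : ∀ i ∈ s, (B - c * w i) ^ 2 = B ^ 2 - 2 * c * B * w i + c ^ 2 * w i ^ 2 := by
    intro i _; ring
  rw [sum_congr rfl this, sum_add_distrib, sum_sub_distrib, sum_const, nsmul_eq_mul, mul_sum,
    mul_sum]

theorem loc_upper {k : ℕ} {p : ℝ} (hp : 2 * (k : ℝ) + 2 ≤ p) (v : Option (Fin k) → ℝ) :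
    ∑ e, mu0 p e * (∑ s, v s * Phi p s e) ^ 2
      ≤ ∑ s, (if s = none then 1 else p / (p - 1) ^ 2) * v s ^ 2 := by
  have hk : (0 : ℝ) ≤ k := Nat.cast_nonneg k
  have hp1 : (0 : ℝ) < p - 1 := by linarith
  have hp0 : (0 : ℝ) < p := by linarith
  rw [Fintype.sum_option (fun e => mu0 p e * (∑ s, v s * Phi p s e) ^ 2),
    Fintype.sum_option (fun s => (if s = none then 1 else p / (p - 1) ^ 2) * v s ^ 2)]
  simp only [mu0, sb_none, sb_some, if_true, reduceCtorEq, if_false, one_mul]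
  rw [← mul_sum, sb_sq univ (fun i => v (some i)), card_univ, Fintype.card_fin, ← mul_sum]
  set A := v none
  set S := ∑ j, v (some j)
  set Q := ∑ j, v (some j) ^ 2
  have : (1 - (k : ℝ) / p) * (A + S / (p - 1)) ^ 2 + 1 / p * (k * (A + S / (p - 1)) ^ 2
      - 2 * (p / (p - 1)) * (A + S / (p - 1)) * S + (p / (p - 1)) ^ 2 * Q)
      = A ^ 2 + p / (p - 1) ^ 2 * Q - S ^ 2 / (p - 1) ^ 2 := by
    field_simp
    ring
  rw [this]
  have : 0 ≤ S ^ 2 / (p - 1) ^ 2 := by positivity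
  linarith

theorem loc_lower {k : ℕ} (hk : 1 ≤ k) {p : ℝ} (hp : 2 * (k : ℝ) + 2 ≤ p) (m : Fin k)
    (v : Option (Fin k) → ℝ) :
    ∑ t, Hl m (1 - k / (p - 1) ^ 2) (1 / (p - 1) * (1 - 2 * k / (p - 1))) t
        * (∑ s, v s * Zl m (1 / (p - 1)) s t) ^ 2
      ≤ ∑ e, mu1 m p e * (∑ s, v s * Phi p s e) ^ 2 := by
  have hk1 : (1 : ℝ) ≤ k := by exact_mod_cast hk
  have hp1 : (0 : ℝ) < p - 1 := by linarith
  have hp0 : (0 : ℝ) < p := by linarith
  -- left side
  have hL0 : ∑ s, v s * Zl m (1 / (p - 1)) s none = v none + v (some m) / (p - 1) := by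
    rw [Fintype.sum_option]
    simp only [Zl, if_true, reduceCtorEq, if_false, Option.some.injEq, mul_one]
    congr 1
    rw [sum_eq_single m]
    · simp only [if_true]; ring
    · intro j _ hj; simp [hj]
    · simp
  have hL1 : ∀ i : Fin k, ∑ s, v s * Zl m (1 / (p - 1)) s (some i) = v (some i) := by
    intro i
    rw [Fintype.sum_option]
    simp only [Zl, reduceCtorEq, if_false, Option.some.injEq, mul_zero, zero_add]
    rw [sum_eq_single i]
    · simp
    · intro j _ hj; simp [hj]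
    · simp
  rw [Fintype.sum_option (fun t => Hl m (1 - k / (p - 1) ^ 2)
      (1 / (p - 1) * (1 - 2 * k / (p - 1))) t * (∑ s, v s * Zl m (1 / (p - 1)) s t) ^ 2),
    Fintype.sum_option (fun e => mu1 m p e * (∑ s, v s * Phi p s e) ^ 2)]
  simp only [hL0, hL1, sb_none, sb_some, Hl, mu1]
  set c : ℝ := 1 - k / (p - 1) ^ 2 with hc
  set a : ℝ := 1 / (p - 1) * (1 - 2 * k / (p - 1)) with ha
  have hS : ∑ j, v (some j) = v (some m) + ∑ j ∈ univ.erase m, v (some j) :=
    (add_sum_erase univ (fun j => v (some j)) (mem_univ m)).symm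
  rw [hS]
  set S := ∑ j ∈ univ.erase m, v (some j)
  set Q := ∑ j ∈ univ.erase m, v (some j) ^ 2 with hQ
  have hl : ∑ i : Fin k, (if i = m then 0 else c * a) * v (some i) ^ 2 = c * a * Q := by
    rw [← add_sum_erase univ _ (mem_univ m), if_pos rfl, zero_mul, zero_add, hQ, mul_sum]
    refine sum_congr rfl fun i hi => ?_
    rw [if_neg (ne_of_mem_erase hi)]
  set a0 := v none + v (some m) / (p - 1) with ha0
  have hr : ∑ i : Fin k, (if i = m then 0 else 1 / (p - 1))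
        * (v none + (v (some m) + S) / (p - 1) - p / (p - 1) * v (some i)) ^ 2
      = 1 / (p - 1) * (((k : ℝ) - 1) * (a0 + S / (p - 1)) ^ 2
        - 2 * (p / (p - 1)) * (a0 + S / (p - 1)) * S + (p / (p - 1)) ^ 2 * Q) := by
    rw [← add_sum_erase univ _ (mem_univ m), if_pos rfl, zero_mul, zero_add]
    have hcard : ((univ.erase m : Finset (Fin k)).card : ℝ) = (k : ℝ) - 1 := by
      rw [card_erase_of_mem (mem_univ m), card_univ, Fintype.card_fin, Nat.cast_sub hk]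
      simp
    rw [← hcard, ← sb_sq (univ.erase m) (fun i => v (some i)), mul_sum]
    refine sum_congr rfl fun i hi => ?_
    rw [if_neg (ne_of_mem_erase hi)]
    congr 3
    rw [ha0]; ring
  rw [hl, hr]
  have hB : v none + (v (some m) + S) / (p - 1) = a0 + S / (p - 1) := by rw [ha0]; ring
  rw [hB]
  have hid : (1 - ((k : ℝ) - 1) / (p - 1)) * (a0 + S / (p - 1)) ^ 2
      + 1 / (p - 1) * (((k : ℝ) - 1) * (a0 + S / (p - 1)) ^ 2
        - 2 * (p / (p - 1)) * (a0 + S / (p - 1)) * S + (p / (p - 1)) ^ 2 * Q)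
      = a0 ^ 2 - 2 * (a0 * S) / (p - 1) ^ 2 + Q * p ^ 2 / (p - 1) ^ 3
        - S ^ 2 * (p + 1) / (p - 1) ^ 3 := by
    field_simp
    ring
  rw [hid]
  have hQ0 : 0 ≤ Q := sum_nonneg fun i _ => sq_nonneg _
  have hSQ : S ^ 2 ≤ ((k : ℝ) - 1) * Q := by
    have h := sq_sum_le_card_mul_sum_sq (s := univ.erase m) (f := fun j => v (some j))
    have hcard : ((univ.erase m : Finset (Fin k)).card : ℝ) = (k : ℝ) - 1 := by
      rw [card_erase_of_mem (mem_univ m), card_univ, Fintype.card_fin, Nat.cast_sub hk]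
      simp
    rw [hcard] at h
    exact h
  have hAS : 2 * (a0 * S) ≤ k * a0 ^ 2 + S ^ 2 / k := by
    have h := sq_nonneg ((k : ℝ) * a0 - S)
    have hk0 : (0 : ℝ) < k := by linarith
    have : k * a0 ^ 2 + S ^ 2 / k - 2 * (a0 * S) = (k * a0 - S) ^ 2 / k := by
      field_simp
      ring
    have h2 : 0 ≤ (k * a0 - S) ^ 2 / k := by positivity
    linarith
  have ha_nn : 0 ≤ a := by
    rw [ha]
    have : 2 * (k : ℝ) / (p - 1) ≤ 1 := by
      rw [div_le_one hp1]; linarith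
    have h1 : 0 ≤ 1 / (p - 1) := by positivity
    exact mul_nonneg h1 (by linarith)
  have hc1 : c ≤ 1 := by
    rw [hc]
    have : 0 ≤ (k : ℝ) / (p - 1) ^ 2 := by positivity
    linarith
  have hcaQ : c * a * Q ≤ a * Q :=
    mul_le_mul_of_nonneg_right (mul_le_of_le_one_left ha_nn hc1) hQ0
  -- main comparison
  have hS2 : S ^ 2 / k ≤ Q := by
    rw [div_le_iff₀ (by linarith)]
    have e : ((k : ℝ) - 1) * Q = Q * k - Q := by ring
    linarith
  have h1 : 2 * (a0 * S) / (p - 1) ^ 2 ≤ (k * a0 ^ 2 + S ^ 2 / k) / (p - 1) ^ 2 := by gcongr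
  have h2 : S ^ 2 / k / (p - 1) ^ 2 ≤ Q / (p - 1) ^ 2 := by gcongr
  have h3 : S ^ 2 * (p + 1) / (p - 1) ^ 3 ≤ ((k : ℝ) - 1) * Q * (p + 1) / (p - 1) ^ 3 := by
    gcongr
  have h4 : a * Q + Q / (p - 1) ^ 2 + ((k : ℝ) - 1) * Q * (p + 1) / (p - 1) ^ 3
      ≤ Q * p ^ 2 / (p - 1) ^ 3 := by
    have e : Q * p ^ 2 / (p - 1) ^ 3 - (a * Q + Q / (p - 1) ^ 2
        + ((k : ℝ) - 1) * Q * (p + 1) / (p - 1) ^ 3)
        = Q * (k * p + 2 * p - 3 * k + 1) / (p - 1) ^ 3 := by
      rw [ha]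
      field_simp
      ring
    have : 0 ≤ Q * (k * p + 2 * p - 3 * k + 1) / (p - 1) ^ 3 := by
      have : 0 ≤ (k : ℝ) * p + 2 * p - 3 * k + 1 := by
        have h7 : (3 : ℝ) ≤ p := by linarith
        have h8 := mul_le_mul_of_nonneg_left h7 (by linarith : (0 : ℝ) ≤ k)
        linarith
      positivity
    linarith
  have h5 : (k * a0 ^ 2 + S ^ 2 / k) / (p - 1) ^ 2
      = k / (p - 1) ^ 2 * a0 ^ 2 + S ^ 2 / k / (p - 1) ^ 2 := by ring
  have h6 : c * a0 ^ 2 = a0 ^ 2 - k / (p - 1) ^ 2 * a0 ^ 2 := by rw [hc]; ring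
  rw [h6]
  linarith [h1, h2, h3, h4, h5, hcaQ]

end Pool.Agent.helper39.MT
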